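import Pool.Agent.Run7.h32.GD.Phys
import Pool.Agent.Run7.h782.WQ.Defs3

/-!
Piece HeatK, first part: smoothness, the heat equation, linearity and coefficients.
-/

set_option autoImplicit false

open MeasureTheory Set Filter Topology
open scoped ContDiff ENNReal ComplexConjugate

namespace Pool.Agent.Run7.h779.WQ

open H459R3.NS Pool.Agent.Run7.h782 Pool.Agent.Run7.h782.GD Pool.Agent.Run7.h782.WQ
open Pool.Agent.Run7.h32.GD hiding sq_nonneg' len_nonneg len_eq len_add_le abs_le_len len_sub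

/-- The coefficients of the heat flow. -/
noncomputable def hco (g : V → ℝ) (t : ℝ) (k : K3) : ℂ :=
  (Real.exp (-(4 * Real.pi ^ 2 * GD.sq k * t)) : ℂ) * fr g k

theorem heat_eq (g : V → ℝ) (t : ℝ) (x : V) : heat t g x = (S (hco g t) x).re := rfl

theorem zero_mem_cube : (0 : V) ∈ cube := ⟨le_rfl, fun _ => zero_le_one⟩

theorem bm_int {g : V → ℝ} (hg : BM g) : IntegrableOn g cube := by
  obtain ⟨M, hM⟩ := hg.bd
  have : IsFiniteMeasure (volume.restrict cube) := cube_finite
  refine Integrable.of_bound hg.meas M ?_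
  refine (ae_restrict_iff' measurableSet_Icc).2 (Eventually.of_forall fun x hx => ?_)
  exact hM x hx

theorem int_ee_mul {g : V → ℝ} (hg : IntegrableOn g cube) (k : K3) :
    IntegrableOn (fun x => ee k x * (g x : ℂ)) cube := by
  have hfc : IntegrableOn (fun x => (g x : ℂ)) cube := hg.ofReal
  refine Integrable.bdd_mul (c := 1) hfc (ee_continuous k).aestronglyMeasurable ?_
  exact Eventually.of_forall fun x => (norm_ee _ _).le

theorem bm_norm_fr {g : V → ℝ} (hg : BM g) : ∃ M : ℝ, 0 ≤ M ∧ (∀ x ∈ cube, |g x| ≤ M) ∧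
    ∀ k, ‖fr g k‖ ≤ M := by
  obtain ⟨M, hM⟩ := hg.bd
  refine ⟨M, (abs_nonneg _).trans (hM 0 zero_mem_cube), hM, fun k => ?_⟩
  have h := norm_setIntegral_le_of_norm_le_const (μ := volume) (s := cube) (C := M)
    (f := fun x => ee (-k) x * (g x : ℂ)) (by rw [volume_cube]; exact ENNReal.one_lt_top)
    (fun x hx => by
      rw [norm_mul, norm_ee, one_mul, Complex.norm_real]
      exact hM x hx)
  have e : volume.real cube = 1 := by rw [Measure.real, volume_cube, ENNReal.toReal_one]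
  rwa [e, mul_one] at h

theorem len_le_sq (k : K3) : GD.len k ≤ GD.sq k := by
  by_cases hk : k = 0
  · subst hk
    rw [GD.len_zero]
    exact GD.sq_nonneg' 0
  · have h1 := GD.one_le_len hk
    have h2 := GD.len_sq k
    nlinarith

theorem dec_hco {g : V → ℝ} (hg : BM g) {a : ℝ} (ha : 0 < a) : Dec fun t => hco g (a + t) := by
  obtain ⟨M, hM0, -, hM⟩ := bm_norm_fr hg
  refine ⟨4 * Real.pi ^ 2 * a, by positivity, M, hM0, fun t ht k => ?_⟩
  change ‖hco g (a + t) k‖ ≤ _
  rw [hco, norm_mul, Complex.norm_real, Real.norm_of_nonneg (Real.exp_pos _).le, mul_comm]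
  refine mul_le_mul (hM k) (Real.exp_le_exp.2 (neg_le_neg ?_)) (Real.exp_pos _).le hM0
  have h1 := len_le_sq k
  have h2 := GD.len_nonneg k
  have h3 : GD.len k * a ≤ GD.sq k * (a + t) := by nlinarith
  have h4 : 0 ≤ 4 * Real.pi ^ 2 := by positivity
  nlinarith

theorem hasDeriv_hco (g : V → ℝ) (a : ℝ) (k : K3) (t : ℝ) :
    HasDerivAt (fun s => hco g (a + s) k) (-(lam 1 k : ℝ) * hco g (a + t) k) t := by
  have h1 : HasDerivAt (fun s : ℝ => -(4 * Real.pi ^ 2 * GD.sq k * (a + s)))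
      (-(4 * Real.pi ^ 2 * GD.sq k)) t := by
    have := ((hasDerivAt_id t).const_add a).const_mul (-(4 * Real.pi ^ 2 * GD.sq k))
    simp only [id, mul_one] at this
    refine this.congr_of_eventuallyEq (Eventually.of_forall fun s => ?_)
    ring
  have h2 := h1.exp
  have h3 : HasDerivAt (fun s : ℝ => (Real.exp (-(4 * Real.pi ^ 2 * GD.sq k * (a + s))) : ℂ))
      ((Real.exp (-(4 * Real.pi ^ 2 * GD.sq k * (a + t))) * -(4 * Real.pi ^ 2 * GD.sq k) : ℝ) : ℂ)
      t := h2.ofReal_comp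
  have h4 := h3.mul_const (fr g k)
  refine h4.congr_deriv ?_
  rw [hco, lam]
  push_cast
  ring

theorem gd_hco {g : V → ℝ} (hg : BM g) {a : ℝ} (ha : 0 < a) (n : ℕ) :
    Gd n fun t => hco g (a + t) := by
  induction n with
  | zero =>
    exact ⟨dec_hco hg ha, fun k => fun t _ =>
      (hasDeriv_hco g a k t).continuousAt.continuousWithinAt⟩
  | succ n ih =>
    refine ⟨dec_hco hg ha, fun t k => (-(lam 1 k : ℝ) : ℂ) * hco g (a + t) k,
      fun k t _ => ?_, ih.mul (mul_lam 1)⟩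
    have := (hasDeriv_hco g a k t).hasDerivWithinAt (s := Ici 0)
    exact this

/-- Item 1. -/
theorem heat_smooth {g : V → ℝ} (hg : BM g) :
    ContDiffOn ℝ ∞ (fun z : ℝ × V => heat z.1 g z.2) (Ioi 0 ×ˢ univ) := by
  intro z hz
  have hz0 : 0 < z.1 := hz.1
  set a : ℝ := z.1 / 2 with ha
  have ha0 : 0 < a := half_pos hz0
  have h1 : ContDiffOn ℝ ∞ (fun y : ℝ × V => (S (hco g (a + y.1)) y.2).re) (Ici 0 ×ˢ univ) :=
    Complex.reCLM.contDiff.comp_contDiffOn (contDiffOn_S_infty (gd_hco hg ha0))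
  have h2 : ContDiffAt ℝ ∞ (fun y : ℝ × V => (S (hco g (a + y.1)) y.2).re) (z.1 - a, z.2) := by
    refine h1.contDiffAt (prod_mem_nhds (Ici_mem_nhds ?_) univ_mem)
    change 0 < z.1 - a
    rw [ha]
    linarith
  have h3 : ContDiffAt ℝ ∞ (fun y : ℝ × V => ((y.1 - a, y.2) : ℝ × V)) z :=
    (contDiffAt_fst.sub contDiffAt_const).prodMk contDiffAt_snd
  have h4 := ContDiffAt.comp z (g := fun y : ℝ × V => (S (hco g (a + y.1)) y.2).re)
    (f := fun y : ℝ × V => ((y.1 - a, y.2) : ℝ × V)) h2 h3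
  refine (h4.congr_of_eventuallyEq (Eventually.of_forall fun y => ?_)).contDiffWithinAt
  simp only [Function.comp_apply, heat_eq, add_sub_cancel]

theorem dec_hco' {g : V → ℝ} (hg : BM g) {t : ℝ} (ht : 0 < t) : Dec fun _ => hco g t := by
  have := dec_const (dec_hco hg ht) (t := 0) le_rfl
  simpa using this

theorem summable_hco {g : V → ℝ} (hg : BM g) {t : ℝ} (ht : 0 < t) : Summable (hco g t) :=
  (dec_hco' hg ht).summable (t := 0) le_rfl

/-- Item 2. -/
theorem heat_per (g : V → ℝ) (t : ℝ) : Per (heat t g) := by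
  intro i x
  rw [heat_eq, heat_eq, per_S]

/-- Item 3. -/
theorem heat_deriv {g : V → ℝ} (hg : BM g) {t : ℝ} (ht : 0 < t) (x : V) :
    HasDerivAt (fun s => heat s g x) (∑ j, pd j (pd j (heat t g)) x) t := by
  have ha0 : 0 < t / 2 := half_pos ht
  have h1 := hasDerivWithinAt_S (n := 0) (c := fun s => hco g (t / 2 + s))
    (c' := fun s k => (-(lam 1 k : ℝ) : ℂ) * hco g (t / 2 + s) k) (dec_hco hg ha0)
    ((gd_hco hg ha0 0).mul (mul_lam 1))
    (fun k s _ => (hasDeriv_hco g (t / 2) k s).hasDerivWithinAt) ha0.le x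
  have h2 := h1.hasDerivAt (Ici_mem_nhds ha0)
  have h3 : HasDerivAt (fun s : ℝ => s - t / 2) 1 t := (hasDerivAt_id t).sub_const _
  have h4 : HasDerivAt (fun s => S (hco g (t / 2 + s)) x)
      (S (fun k => (-(lam 1 k : ℝ) : ℂ) * hco g (t / 2 + t / 2) k) x) (t - t / 2) := by
    rw [sub_half]
    exact h2
  have h5 := h4.scomp t h3
  rw [one_smul] at h5
  have h6 : HasDerivAt (fun s => S (hco g s) x)
      (S (fun k => (-(lam 1 k : ℝ) : ℂ) * hco g t k) x) t := by
    rw [add_halves] at h5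
    refine h5.congr_of_eventuallyEq (Eventually.of_forall fun s => ?_)
    simp only [Function.comp_apply, add_sub_cancel]
  have h7 := Complex.reCLM.hasFDerivAt.comp_hasDerivAt t h6
  have e1 : ∀ j y, pd j (heat t g) y = (S (D j (hco g t)) y).re := fun j y =>
    pd_reS (dec_hco' hg ht) y j
  have e2 : ∀ j, pd j (pd j (heat t g)) x = (S (D j (D j (hco g t))) x).re := by
    intro j
    have : pd j (heat t g) = fun y => (S (D j (hco g t)) y).re := funext fun y => e1 j y
    rw [this]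
    exact pd_reS ((dec_hco' hg ht).D j) x j
  refine HasDerivAt.congr_deriv h7 ?_
  simp_rw [e2]
  rw [← Complex.re_sum]
  change (S (fun k => (-(lam 1 k : ℝ) : ℂ) * hco g t k) x).re = _
  congr 1
  unfold S
  rw [← Summable.tsum_finsetSum (fun j _ => summable_term
    (((dec_hco' hg ht).D j).D j |>.summable (t := 0) le_rfl) x)]
  refine tsum_congr fun k => ?_
  rw [← Finset.sum_mul]
  congr 1
  have e : ∀ j, D j (D j (hco g t)) k = -(4 * Real.pi ^ 2 * (k j : ℂ) ^ 2) * hco g t k := by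
    intro j
    unfold D
    linear_combination (4 * (Real.pi : ℂ) ^ 2 * (k j : ℂ) ^ 2 * hco g t k) * Complex.I_sq
  simp_rw [e]
  rw [← Finset.sum_mul, lam, GD.sq]
  congr 1
  push_cast
  rw [Finset.sum_neg_distrib, Finset.mul_sum]
  congr 1
  refine Finset.sum_congr rfl fun j _ => ?_
  ring

theorem fr_sub {g g' : V → ℝ} (hg : IntegrableOn g cube) (hg' : IntegrableOn g' cube) (k : K3) :
    fr (fun y => g y - g' y) k = fr g k - fr g' k := by
  rw [fr, fr, fr, fc, fc, fc, ← integral_sub (int_ee_mul hg _) (int_ee_mul hg' _)]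
  congr 1
  funext x
  push_cast
  ring

/-- Item 6. -/
theorem heat_sub {g g' : V → ℝ} (hg : BM g) (hg' : BM g') {t : ℝ} (ht : 0 < t) (x : V) :
    heat t (fun y => g y - g' y) x = heat t g x - heat t g' x := by
  rw [heat_eq, heat_eq, heat_eq, ← Complex.sub_re]
  congr 1
  unfold S
  rw [← (summable_term (summable_hco hg ht) x).tsum_sub (summable_term (summable_hco hg' ht) x)]
  refine tsum_congr fun k => ?_
  rw [hco, hco, hco, fr_sub (bm_int hg) (bm_int hg')]
  ring

theorem fr_neg (g : V → ℝ) (k : K3) : fr g (-k) = conj (fr g k) := by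
  rw [fr, fc, fc, ← integral_conj]
  congr 1
  funext x
  rw [map_mul, Complex.conj_ofReal, ee_neg (-k)]

theorem hco_neg (g : V → ℝ) (t : ℝ) (k : K3) : hco g t (-k) = conj (hco g t k) := by
  rw [hco, hco, fr_neg, map_mul, Complex.conj_ofReal, GD.sq_neg]

/-- Item 7. -/
theorem fr_heat {g : V → ℝ} (hg : BM g) {t : ℝ} (ht : 0 < t) (k : K3) :
    fr (heat t g) k = (Real.exp (-(4 * Real.pi ^ 2 * GD.sq k * t)) : ℂ) * fr g k := by
  have h1 : ∀ x, ((heat t g x : ℝ) : ℂ) = S (hco g t) x := fun x =>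
    (S_real (hco_neg g t) x).symm
  have h2 := integral_ee_S (-k) (summable_hco hg ht)
  rw [neg_neg] at h2
  rw [fr, fc]
  simp_rw [h1]
  rw [h2, hco]

end Pool.Agent.Run7.h779.WQ
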