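import Pool.Agent.Run7.h779.WQ.D1
import Pool.Agent.Run7.h779.WQ.Heat1
import Pool.Agent.Run7.h782.WQ.Defs4

/-!
Piece D1S.
-/

set_option autoImplicit false

open MeasureTheory Set Filter Topology
open scoped ENNReal ComplexConjugate

namespace Pool.Agent.Run7.h779.WQ

open H459R3.NS Pool.Agent.Run7.h782 Pool.Agent.Run7.h782.GD Pool.Agent.Run7.h782.WS
open Pool.Agent.Run7.h782.WQ
open Pool.Agent.Run7.h744.WQ hiding rn_nonneg rp_nonneg fn_nonneg fp_nonneg
open Pool.Agent.Run7.h32.GD (per_S S_real)

/-- Integrals from norms. -/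
theorem int_le_of_norm {p : ℝ} (hp : 1 ≤ p) {F : V → ℂ} (hF : AEStronglyMeasurable F mc) {δ : ℝ}
    (hδ : 0 ≤ δ) (h : eLpNorm F (ENNReal.ofReal p) mc ≤ ENNReal.ofReal δ) :
    IntegrableOn (fun x => ‖F x‖ ^ p) cube ∧ ∫ x in cube, ‖F x‖ ^ p ≤ δ ^ p := by
  have hp0 : 0 < p := by linarith
  have hm : MemLp F (ENNReal.ofReal p) mc := ⟨hF, h.trans_lt ENNReal.ofReal_lt_top⟩
  have h0 : 0 ≤ ∫ x in cube, ‖F x‖ ^ p := integral_nonneg fun x =>
    Real.rpow_nonneg (norm_nonneg _) _
  constructor
  · have h1 := (integrable_norm_rpow_iff hF (by simpa using hp0) ENNReal.ofReal_ne_top).2 hm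
    rwa [ENNReal.toReal_ofReal hp0.le] at h1
  · have h3 := hm.eLpNorm_eq_integral_rpow_norm (by simpa using hp0) ENNReal.ofReal_ne_top
    rw [h3, ENNReal.toReal_ofReal hp0.le] at h
    have h5 := (ENNReal.ofReal_le_ofReal_iff hδ).1 h
    have h6 := Real.rpow_le_rpow (Real.rpow_nonneg h0 _) h5 hp0.le
    rwa [← Real.rpow_mul h0, inv_mul_cancel₀ hp0.ne', Real.rpow_one] at h6

theorem re_sub_le (s : ℂ) (y : ℝ) : |s.re - y| ≤ ‖(y : ℂ) - s‖ := by
  have h := Complex.abs_re_le_norm ((y : ℂ) - s)
  rw [Complex.sub_re, Complex.ofReal_re] at h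
  rwa [abs_sub_comm]

theorem d1s : StmD1S := by
  intro c R Q hc hv h0 hR hd hQ hi
  have hcube := cube_finite
  by_cases hs : Summable fun k => ‖c k‖
  · have hdat := d1_sum c Q hc hv h0 hQ hs
    obtain ⟨-, -, -, -, -, -, -, -, q9, q10, q11⟩ := stmQ0
    have hlen : ∀ (d : Cf) k, ‖d k‖ / GD.len k ≤ ‖d k‖ := by
      intro d k
      by_cases hk : k = 0
      · subst hk
        rw [GD.len_zero, div_zero]
        exact norm_nonneg _
      · exact div_le_self (norm_nonneg _) (GD.one_le_len hk)
    have hsl : ∀ d : Cf, (Summable fun k => ‖d k‖) → Summable fun k => ‖d k‖ / GD.len k :=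
      fun d hd => Summable.of_nonneg_of_le
        (fun k => div_nonneg (norm_nonneg _) (GD.len_nonneg k)) (hlen d) hd
    have h1 : R1 (anti c) := (q9 c (hsl c hs)).1
    have hsy : Sy (anti c) := q10 c hc
    have hcont : ∀ i j, Continuous (S (anti c i j)) := fun i j => S_continuous (r1s h1 i j)
    have hcr : ∀ i j, Continuous fun x => (S (anti c i j) x).re := fun i j =>
      Complex.continuous_re.comp (hcont i j)
    have hint : ∀ i j (p : ℝ), 0 ≤ p → IntegrableOn (fun x => |(S (anti c i j) x).re| ^ p) cube :=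
      fun i j p hp => integrableOn_cube ((hcr i j).abs.rpow_const fun x => Or.inr hp)
    refine ⟨fun m => anti (trc c m), fun i j x => (S (anti c i j) x).re, hdat, ⟨?_, ?_, ?_⟩, ?_,
      fun n i j => ⟨hint i j (Q n) (by linarith [hQ n]), ?_⟩⟩
    · intro i j l x
      simp only
      rw [per_S]
    · intro i j x
      have : anti c i j = anti c j i := funext fun k => hsy.sym i j k
      change (S (anti c i j) x).re = (S (anti c j i) x).re
      rw [this]
    · exact fun i j => integrableOn_cube (hcr i j)
    · intro k _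
      have e : (fun i j l => fr (fun x => (S (anti c i j) x).re) l : Mf) = anti c := by
        funext i j l
        have h2 := integral_ee_S (-l) (r1s h1 i j)
        rw [neg_neg] at h2
        rw [fr, fc, ← h2]
        congr 1
        funext x
        rw [← S_real (fun k => hsy.herm i j k)]
      rw [e, q11 c hv h0]
    · have htl := tail_tendsto hs
      have hp : 0 < Q n := by linarith [hQ n]
      have hts : ∀ m, Summable fun k => ‖trc c m k‖ := fun m =>
        summable_of_ne_finset_zero (s := bx m) fun k hk => by rw [trc, if_neg hk, norm_zero]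
      have hsc : ∀ m, Summable fun k => ‖(trc c m - c) k‖ := fun m =>
        ((hts m).add hs).of_nonneg_of_le (fun _ => norm_nonneg _)
          (fun k => by rw [Pi.sub_apply]; exact norm_sub_le _ _)
      have hlim : Tendsto (fun m => (18 * ∑' k, ‖trc c m k - c k‖) ^ Q n) atTop (𝓝 0) := by
        have h2 := (htl.const_mul 18).rpow_const (p := Q n) (Or.inr hp.le)
        rwa [mul_zero, Real.zero_rpow hp.ne'] at h2
      refine squeeze_zero (fun m => integral_nonneg fun x => Real.rpow_nonneg (abs_nonneg _) _)
        (fun m => ?_) hlim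
      obtain ⟨g1, g2⟩ := q9 _ (hsl _ (hsc m))
      have ht1 : R1 (anti (trc c m)) := (q9 _ (hsl _ (hts m))).1
      have e1 : anti (trc c m) - anti c = anti (trc c m - c) := by
        funext i j k
        simp only [anti, Pi.sub_apply]
        rw [← sub_div]
        congr 1
        ring
      have hb : ∀ x, |(S (anti (trc c m) i j) x).re - (S (anti c i j) x).re|
          ≤ 18 * ∑' k, ‖trc c m k - c k‖ := by
        intro x
        rw [← Complex.sub_re, ← S_sub (r1s ht1 i j) (r1s h1 i j)]
        refine (Complex.abs_re_le_norm _).trans ?_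
        have e2 : (fun k => anti (trc c m) i j k - anti c i j k) = anti (trc c m - c) i j := by
          rw [← e1]
          rfl
        rw [e2]
        refine (norm_S_le (r1s g1 i j) x).trans ?_
        have h3 : ∑' k, ‖anti (trc c m - c) i j k‖ ≤ rN (anti (trc c m - c)) := by
          rw [rN]
          refine le_trans ?_ (Finset.single_le_sum
            (f := fun i => ∑ j, ∑' k, ‖anti (trc c m - c) i j k‖)
            (fun i _ => Finset.sum_nonneg fun j _ => tsum_nonneg fun k => norm_nonneg _)
            (Finset.mem_univ i))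
          exact Finset.single_le_sum (f := fun j => ∑' k, ‖anti (trc c m - c) i j k‖)
            (fun j _ => tsum_nonneg fun k => norm_nonneg _) (Finset.mem_univ j)
        refine h3.trans (g2.trans (mul_le_mul_of_nonneg_left ?_ (by norm_num)))
        exact (hsl _ (hsc m)).tsum_le_tsum (hlen _) (hsc m)
      have hc2 : Continuous fun x => |(S (anti (trc c m) i j) x).re - (S (anti c i j) x).re| ^ Q n :=
        (((Complex.continuous_re.comp (S_continuous (r1s ht1 i j))).sub (hcr i j)).abs).rpow_const
          fun x => Or.inr hp.le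
      have h4 := integral_mono (μ := volume.restrict cube) (integrableOn_cube hc2)
        (integrable_const ((18 * ∑' k, ‖trc c m k - c k‖) ^ Q n)) fun x =>
          Real.rpow_le_rpow (abs_nonneg _) (hb x) hp.le
      rwa [integral_cube_const] at h4
  · obtain ⟨r, hr, hr1, hE⟩ := d1_stress c R Q h0 hR hd hQ hi hs
    refine ⟨r, R, hr, hR, hd, fun n i j => ⟨hi n i j, ?_⟩⟩
    have hp : 0 < Q n := by linarith [hQ n]
    have hlim : Tendsto (fun m : ℕ => (1 / ((m : ℝ) + 1)) ^ Q n) atTop (𝓝 0) := by
      have h2 := tendsto_one_div_add_atTop_nhds_zero_nat.rpow_const (p := Q n)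
        (Or.inr hp.le)
      rwa [Real.zero_rpow hp.ne'] at h2
    refine squeeze_zero' (Eventually.of_forall fun m =>
      integral_nonneg fun x => Real.rpow_nonneg (abs_nonneg _) _) ?_ hlim
    filter_upwards [eventually_ge_atTop n] with m hm
    have hms : AEStronglyMeasurable (fun x => (R i j x : ℂ) - S (r m i j) x) mc := by
      have h1 : AEStronglyMeasurable (fun x => (R i j x : ℂ)) mc := (hR.int i j).ofReal.1
      exact h1.sub (S_continuous (r1s (hr1 m) i j)).aestronglyMeasurable
    obtain ⟨g1, g2⟩ := int_le_of_norm (hQ n) hms (by positivity) (hE i j m n hm)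
    refine le_trans ?_ g2
    refine integral_mono_of_nonneg (Eventually.of_forall fun x =>
      Real.rpow_nonneg (abs_nonneg _) _) g1 (Eventually.of_forall fun x => ?_)
    exact Real.rpow_le_rpow (abs_nonneg _) (re_sub_le _ _) hp.le

end Pool.Agent.Run7.h779.WQ
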