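import Pool.Agent.Run7.h779.WQ.Heat1
import Pool.Agent.Run7.h219.WQ.NecA

/-!
Piece HeatK, second part: positivity and contractivity.
-/

set_option autoImplicit false

open MeasureTheory Set Filter Topology
open scoped ContDiff ENNReal ComplexConjugate

namespace Pool.Agent.Run7.h779.WQ

open H459R3.NS Pool.Agent.Run7.h782 Pool.Agent.Run7.h782.GD Pool.Agent.Run7.h782.WQ
open Pool.Agent.Run7.h219.WQ (G gc hasSum_gc S_gc S_gc' G_nonneg summable_gc ee_sub int_G G_cont)

theorem gc_eq (t : ℝ) (k : K3) :
    gc 1 t k = (Real.exp (-(4 * Real.pi ^ 2 * GD.sq k * t)) : ℂ) := by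
  rw [gc, lam, mul_one]

theorem G_int {g : V → ℝ} (hg : IntegrableOn g cube) {t : ℝ} (ht : 0 < t) (x : V) :
    IntegrableOn (fun y => G 1 t (x - y) * g y) cube := by
  refine Integrable.bdd_mul (c := ∑' k, ‖gc 1 t k‖) hg
    ((G_cont one_pos ht).comp (by fun_prop)).aestronglyMeasurable ?_
  refine Eventually.of_forall fun y => ?_
  have h := norm_S_le (summable_gc one_pos ht) (x - y)
  rw [S_gc' one_pos ht, Complex.norm_real] at h
  exact h

/-- The kernel of the heat semigroup. -/
theorem heat_kernel {g : V → ℝ} (hg : IntegrableOn g cube) {t : ℝ} (ht : 0 < t) (x : V) :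
    heat t g x = ∫ y in cube, G 1 t (x - y) * g y := by
  have hs := summable_gc (ν := 1) one_pos ht
  have hi : ∀ k, Integrable (fun y => gc 1 t k * ee k x * (ee (-k) y * (g y : ℂ)))
      (volume.restrict cube) := fun k => (int_ee_mul hg (-k)).const_mul _
  have hsum : Summable fun k => ∫ y in cube, ‖gc 1 t k * ee k x * (ee (-k) y * (g y : ℂ))‖ := by
    have e : ∀ k, ∫ y in cube, ‖gc 1 t k * ee k x * (ee (-k) y * (g y : ℂ))‖
        = ‖gc 1 t k‖ * ∫ y in cube, |g y| := by
      intro k
      rw [← integral_const_mul]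
      congr 1
      funext y
      rw [norm_mul, norm_mul, norm_mul, norm_ee, norm_ee, mul_one, one_mul, Complex.norm_real,
        Real.norm_eq_abs]
    simp_rw [e]
    exact hs.norm.mul_right _
  have h := hasSum_integral_of_summable_integral_norm hi hsum
  have e1 : (∫ y in cube, ∑' k, gc 1 t k * ee k x * (ee (-k) y * (g y : ℂ)))
      = ((∫ y in cube, G 1 t (x - y) * g y : ℝ) : ℂ) := by
    rw [← integral_complex_ofReal]
    congr 1
    funext y
    have e2 : ∀ k, gc 1 t k * ee k x * (ee (-k) y * (g y : ℂ))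
        = (gc 1 t k * ee k (x - y)) * (g y : ℂ) := by
      intro k
      rw [ee_sub]
      ring
    simp_rw [e2]
    rw [tsum_mul_right]
    have e3 : ∑' k, gc 1 t k * ee k (x - y) = (G 1 t (x - y) : ℂ) := S_gc' one_pos ht _
    rw [e3]
    push_cast
    ring
  rw [e1] at h
  have e4 : ∀ k, ∫ y in cube, gc 1 t k * ee k x * (ee (-k) y * (g y : ℂ)) = hco g t k * ee k x := by
    intro k
    rw [integral_const_mul, hco, ← gc_eq, fr, fc]
    ring
  simp_rw [e4] at h
  have h2 := h.tsum_eq
  rw [heat_eq]
  have h3 : S (hco g t) x = ((∫ y in cube, G 1 t (x - y) * g y : ℝ) : ℂ) := h2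
  rw [h3, Complex.ofReal_re]

theorem fr_one (k : K3) : fr (fun _ => (1 : ℝ)) k = if k = 0 then 1 else 0 := by
  rw [fr, fc]
  simp only [Complex.ofReal_one, mul_one]
  rw [integral_ee]
  by_cases hk : k = 0
  · simp [hk]
  · rw [if_neg hk, if_neg fun h => hk (neg_eq_zero.1 h)]

theorem int_one : IntegrableOn (fun _ : V => (1 : ℝ)) cube := by
  have : IsFiniteMeasure (volume.restrict cube) := cube_finite
  exact integrable_const _

theorem int_G' {t : ℝ} (ht : 0 < t) (x : V) : ∫ y in cube, G 1 t (x - y) = 1 := by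
  have h := heat_kernel int_one ht x
  simp only [mul_one] at h
  rw [← h, heat_eq]
  have e : S (hco (fun _ => (1 : ℝ)) t) x = 1 := by
    unfold S
    rw [tsum_eq_single 0 fun k hk => by rw [hco, fr_one, if_neg hk, mul_zero, zero_mul]]
    rw [hco, fr_one, if_pos rfl]
    simp [ee_zero]
  rw [e, Complex.one_re]

/-- Item 4. -/
theorem heat_pos {g : V → ℝ} (hg : BM g) {a : ℝ} (ha : ∀ x ∈ cube, a ≤ g x) {t : ℝ} (ht : 0 < t)
    (x : V) : a ≤ heat t g x := by
  have h1 : ∫ y in cube, G 1 t (x - y) * a = a := by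
    rw [integral_mul_const, int_G' ht, one_mul]
  have hc : IntegrableOn (fun _ : V => a) cube := by
    have : IsFiniteMeasure (volume.restrict cube) := cube_finite
    exact integrable_const _
  rw [heat_kernel (bm_int hg) ht]
  calc a = ∫ y in cube, G 1 t (x - y) * a := h1.symm
    _ ≤ ∫ y in cube, G 1 t (x - y) * g y :=
        setIntegral_mono_on (G_int hc ht x) (G_int (bm_int hg) ht x) measurableSet_Icc
          fun y hy => mul_le_mul_of_nonneg_left (ha y hy) (G_nonneg one_pos ht _)

theorem bm_pow {g : V → ℝ} (hg : BM g) (p : ℝ) (hp : 0 ≤ p) :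
    IntegrableOn (fun x => |g x| ^ p) cube := by
  obtain ⟨M, hM⟩ := hg.bd
  have : IsFiniteMeasure (volume.restrict cube) := cube_finite
  have hM0 : 0 ≤ M := (abs_nonneg _).trans (hM 0 zero_mem_cube)
  refine Integrable.of_bound
    ((hg.meas.norm.aemeasurable.pow_const p).aestronglyMeasurable) (M ^ p) ?_
  refine (ae_restrict_iff' measurableSet_Icc).2 (Eventually.of_forall fun x hx => ?_)
  rw [Real.norm_of_nonneg (Real.rpow_nonneg (abs_nonneg _) _)]
  exact Real.rpow_le_rpow (abs_nonneg _) (hM x hx) hp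

/-- Pointwise form of the contractivity. -/
theorem heat_jensen {g : V → ℝ} (hg : BM g) {t : ℝ} (ht : 0 < t) {p : ℝ} (hp : 1 ≤ p) (x : V) :
    |heat t g x| ^ p ≤ ∫ y in cube, G 1 t (x - y) * |g y| ^ p := by
  have hp0 : 0 < p := by linarith
  have hgi := bm_int hg
  have habs : IntegrableOn (fun y => |g y|) cube := hgi.abs
  have hG : ∀ y, 0 ≤ G 1 t (x - y) := fun y => G_nonneg one_pos ht _
  set m : ℝ := ∫ y in cube, G 1 t (x - y) * |g y| with hm
  have hm0 : 0 ≤ m := integral_nonneg fun y => mul_nonneg (hG y) (abs_nonneg _)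
  have h1 : |heat t g x| ≤ m := by
    rw [heat_kernel hgi ht]
    refine (abs_integral_le_integral_abs).trans (le_of_eq ?_)
    rw [hm]
    congr 1
    funext y
    rw [abs_mul, abs_of_nonneg (hG y)]
  refine (Real.rpow_le_rpow (abs_nonneg _) h1 hp0.le).trans ?_
  rcases hm0.eq_or_lt with h0 | h0
  · rw [← h0, Real.zero_rpow hp0.ne']
    exact integral_nonneg fun y => mul_nonneg (hG y) (Real.rpow_nonneg (abs_nonneg _) _)
  · have hpw : ∀ y, m ^ p * (1 + p * (|g y| / m - 1)) ≤ |g y| ^ p := by
      intro y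
      have h2 := one_add_mul_self_le_rpow_one_add (s := |g y| / m - 1) (p := p)
        (by linarith [div_nonneg (abs_nonneg (g y)) hm0]) hp
      rw [add_sub_cancel, Real.div_rpow (abs_nonneg _) hm0] at h2
      have h3 := mul_le_mul_of_nonneg_left h2 (Real.rpow_nonneg hm0 p)
      rwa [mul_div_cancel₀ _ (Real.rpow_pos_of_pos h0 p).ne'] at h3
    have hc : IntegrableOn (fun _ : V => (1 : ℝ)) cube := int_one
    have i1 : IntegrableOn (fun y => G 1 t (x - y)) cube := by
      have := G_int hc ht x
      simpa using this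
    have i2 : IntegrableOn (fun y => G 1 t (x - y) * |g y|) cube := G_int habs ht x
    have e1 : ∀ y, G 1 t (x - y) * (m ^ p * (1 + p * (|g y| / m - 1)))
        = (m ^ p * (1 - p)) * G 1 t (x - y) + (m ^ p * p / m) * (G 1 t (x - y) * |g y|) := by
      intro y
      field_simp
      ring
    have i3 : IntegrableOn (fun y => G 1 t (x - y) * (m ^ p * (1 + p * (|g y| / m - 1)))) cube := by
      simp_rw [e1]
      exact (i1.const_mul _).add (i2.const_mul _)
    calc m ^ p = ∫ y in cube, G 1 t (x - y) * (m ^ p * (1 + p * (|g y| / m - 1))) := by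
          simp_rw [e1]
          rw [integral_add (i1.const_mul _) (i2.const_mul _), integral_const_mul,
            integral_const_mul, int_G' ht, ← hm]
          field_simp
          ring
      _ ≤ ∫ y in cube, G 1 t (x - y) * |g y| ^ p :=
          integral_mono i3 (G_int (bm_pow hg p hp0.le) ht x) fun y =>
            mul_le_mul_of_nonneg_left (hpw y) (hG y)

theorem int2 {t : ℝ} (ht : 0 < t) {w : V → ℝ} (hw : IntegrableOn w cube) :
    Integrable (Function.uncurry fun (x y : V) => G 1 t (x - y) * w y)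
      ((volume.restrict cube).prod (volume.restrict cube)) := by
  have : IsFiniteMeasure (volume.restrict cube) := cube_finite
  have h1 : Integrable (fun q : V × V => w q.2)
      ((volume.restrict cube).prod (volume.restrict cube)) := Integrable.comp_snd hw _
  refine Integrable.bdd_mul (c := ∑' k, ‖gc 1 t k‖) h1
    ((G_cont one_pos ht).comp (by fun_prop)).aestronglyMeasurable ?_
  refine Eventually.of_forall fun q => ?_
  have h := norm_S_le (summable_gc one_pos ht) (q.1 - q.2)
  rw [S_gc' one_pos ht, Complex.norm_real] at h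
  exact h

/-- Item 5. -/
theorem heat_contr {g : V → ℝ} (hg : BM g) {t : ℝ} (ht : 0 < t) {p : ℝ} (hp : 1 ≤ p) :
    ∫ x in cube, |heat t g x| ^ p ≤ ∫ x in cube, |g x| ^ p := by
  have hp0 : 0 < p := by linarith
  have : IsFiniteMeasure (volume.restrict cube) := cube_finite
  have hw := bm_pow hg p hp0.le
  have h2 := int2 ht hw
  have hc : Continuous (heat t g) := by
    have : heat t g = fun x => (S (hco g t) x).re := funext fun x => heat_eq g t x
    rw [this]
    exact Complex.continuous_re.comp (S_continuous (summable_hco hg ht))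
  calc ∫ x in cube, |heat t g x| ^ p
      ≤ ∫ x in cube, ∫ y in cube, G 1 t (x - y) * |g y| ^ p := by
        refine integral_mono ?_ h2.integral_prod_left fun x => heat_jensen hg ht hp x
        exact integrableOn_cube (hc.abs.rpow_const fun x => Or.inr hp0.le)
    _ = ∫ y in cube, ∫ x in cube, G 1 t (x - y) * |g y| ^ p := integral_integral_swap h2
    _ = ∫ y in cube, |g y| ^ p := by
        congr 1
        funext y
        rw [integral_mul_const, int_G one_pos ht, one_mul]

theorem heatK : StmHeatK :=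
  ⟨fun _ hg => heat_smooth hg, fun g _ t _ => heat_per g t, fun _ hg _ ht x => heat_deriv hg ht x,
    fun _ hg _ ha _ ht x => heat_pos hg ha ht x, fun _ hg _ ht _ hp => heat_contr hg ht hp,
    fun _ _ hg hg' _ ht x => heat_sub hg hg' ht x, fun _ hg _ ht k => fr_heat hg ht k⟩

end Pool.Agent.Run7.h779.WQ
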