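import Pool.Agent.Run7.h779.WQ.KhA
import Pool.Agent.Run7.h782.WQ.Defs

/-!
# Piece Kh
-/

set_option autoImplicit false

namespace Pool.Agent.Run7.h779.WQ

theorem kh : Pool.Agent.Run7.h782.WQ.StmKh := kh_main

end Pool.Agent.Run7.h779.WQ
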