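import Pool.Agent.Run7.h744.WQ.Q0

/-!
Density of the trigonometric polynomials in `L^q` of the period cell.
-/

set_option autoImplicit false

open MeasureTheory Set Filter Topology
open scoped ENNReal ComplexConjugate

namespace Pool.Agent.Run7.h779.WQ

open H459R3.NS Pool.Agent.Run7.h782

attribute [local instance] instMeasureSpaceUnitAddCircle

local instance : IsProbabilityMeasure (volume : Measure UnitAddCircle) :=
  inferInstanceAs (IsProbabilityMeasure AddCircle.haarAddCircle)

/-- The measure of the period cell. -/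
noncomputable abbrev mc : Measure V := volume.restrict cube

instance mcF : IsFiniteMeasure mc := cube_finite

instance mcP : IsProbabilityMeasure mc := ⟨by rw [Measure.restrict_apply_univ]; exact volume_cube⟩

/-- The section of the covering map. -/
noncomputable def sec (t : UnitAddTorus (Fin 3)) : V :=
  (UnitAddTorus.measurableEquivPiIoc (0 : V) t).1

theorem cov_sec (t : UnitAddTorus (Fin 3)) : cov (sec t) = t := by
  have h := (UnitAddTorus.measurableEquivPiIoc (0 : V)).symm_apply_apply t
  exact h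

theorem sec_mp : MeasurePreserving sec (volume : Measure (UnitAddTorus (Fin 3))) mc := by
  have h1 := UnitAddTorus.measurePreserving_equivPiIoc (0 : V)
  have hm : MeasurableSet {x : V | ∀ i, x i ∈ Ioc ((0 : V) i) ((0 : V) i + 1)} :=
    MeasurableSet.univ_pi' fun i => measurableSet_Ioc
  have h2 : MeasurePreserving
      (Subtype.val : {x : V // ∀ i, x i ∈ Ioc ((0 : V) i) ((0 : V) i + 1)} → V)
      (Measure.comap Subtype.val volume)
      (volume.restrict {x : V | ∀ i, x i ∈ Ioc ((0 : V) i) ((0 : V) i + 1)}) :=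
    measurePreserving_subtype_coe hm
  have h3 := h2.comp h1
  rw [Measure.restrict_congr_set cell_ae] at h3
  exact h3

/-- Density of the trigonometric polynomials. -/
theorem dens {q : ℝ≥0∞} (hq1 : 1 ≤ q) (hq : q ≠ ⊤) {f : V → ℝ} (hf : MemLp f q mc)
    {ε : ℝ≥0∞} (hε : ε ≠ 0) : ∃ a : K3 → ℂ, (∃ Z : Finset K3, ∀ k ∉ Z, a k = 0) ∧
      eLpNorm (fun x => (f x : ℂ) - S a x) q mc ≤ ε := by
  have : Fact (1 ≤ q) := ⟨hq1⟩
  have h0 : MemLp (fun x => (f x : ℂ)) q mc := hf.ofReal
  have h1 : MemLp (fun t => (f (sec t) : ℂ)) q volume := h0.comp_measurePreserving sec_mp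
  have h2 : h1.toLp ∈ (Submodule.span ℂ (range (@UnitAddTorus.mFourierLp (Fin 3) _ q _))).topologicalClosure := by
    rw [UnitAddTorus.span_mFourierLp_closure_eq_top hq]
    trivial
  have h3 : h1.toLp ∈ closure (Submodule.span ℂ (range (@UnitAddTorus.mFourierLp (Fin 3) _ q _)) : Set _) := h2
  obtain ⟨T, hT, hd⟩ := EMetric.mem_closure_iff.1 h3 ε (pos_iff_ne_zero.2 hε)
  obtain ⟨a, ha⟩ := (Finsupp.mem_span_range_iff_exists_finsupp).1 hT
  refine ⟨a, ⟨a.support, fun k hk => Finsupp.notMem_support_iff.1 hk⟩, ?_⟩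
  have h4 : T = ContinuousMap.toLp (E := ℂ) q volume ℂ
      (∑ k ∈ a.support, a k • UnitAddTorus.mFourier k) := by
    rw [← ha, map_sum]
    refine Finset.sum_congr rfl fun k _ => ?_
    rw [map_smul]
  have h5 : ∀ x, S a x = ∑ k ∈ a.support, a k * ee k x := by
    intro x
    refine tsum_eq_sum fun k hk => ?_
    rw [Finsupp.notMem_support_iff.1 hk, zero_mul]
  have h6 : (T : UnitAddTorus (Fin 3) → ℂ) =ᵐ[volume] fun t => S a (sec t) := by
    rw [h4]
    filter_upwards [ContinuousMap.coeFn_toLp (p := q) (𝕜 := ℂ) (volume : Measure (UnitAddTorus (Fin 3)))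
      (∑ k ∈ a.support, a k • UnitAddTorus.mFourier k)] with t ht
    rw [ht, h5, ContinuousMap.sum_apply]
    refine Finset.sum_congr rfl fun k _ => ?_
    rw [ContinuousMap.smul_apply, smul_eq_mul, ← mFourier_cov, cov_sec]
  have h7 : Continuous (S a) := by
    have : S a = fun x => ∑ k ∈ a.support, a k * ee k x := funext h5
    rw [this]
    exact continuous_finsetSum _ fun k _ => continuous_const.mul (ee_continuous k)
  have h8 : AEStronglyMeasurable (fun x => (f x : ℂ) - S a x) mc :=
    h0.1.sub h7.aestronglyMeasurable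
  have h9 := eLpNorm_comp_measurePreserving (p := q) h8 sec_mp
  rw [← h9]
  rw [Lp.edist_def] at hd
  refine le_trans (le_of_eq ?_) hd.le
  refine eLpNorm_congr_ae ?_
  filter_upwards [h1.coeFn_toLp, h6] with t h10 h11
  simp only [Function.comp_apply, Pi.sub_apply, h10, h11]

theorem S_conj {a : K3 → ℂ} (x : V) :
    S (fun k => conj (a (-k))) x = conj (S a x) := by
  unfold S
  rw [Complex.conj_tsum, ← (Equiv.neg K3).tsum_eq]
  refine tsum_congr fun k => ?_
  simp only [Equiv.neg_apply, map_mul, neg_neg, ee_neg]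

/-- The real part of a trigonometric polynomial. -/
theorem dens_real {q : ℝ≥0∞} (hq1 : 1 ≤ q) (hq : q ≠ ⊤) {f : V → ℝ} (hf : MemLp f q mc)
    {ε : ℝ≥0∞} (hε : ε ≠ 0) : ∃ a : K3 → ℂ, (∃ Z : Finset K3, ∀ k ∉ Z, a k = 0) ∧
      (∀ k, a (-k) = conj (a k)) ∧ eLpNorm (fun x => (f x : ℂ) - S a x) q mc ≤ ε := by
  obtain ⟨a, ⟨Z, hZ⟩, ha⟩ := dens hq1 hq hf hε
  have hs : Summable a := summable_of_ne_finset_zero (s := Z) hZ
  have hZ' : ∀ k ∉ Z.image (fun k => -k), conj (a (-k)) = 0 := by
    intro k hk
    rw [hZ (-k), map_zero]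
    intro h
    exact hk (Finset.mem_image.2 ⟨-k, h, neg_neg k⟩)
  have hs' : Summable (fun k => conj (a (-k))) :=
    summable_of_ne_finset_zero (s := Z.image (fun k => -k)) hZ'
  refine ⟨fun k => (a k + conj (a (-k))) / 2, ⟨Z ∪ Z.image (fun k => -k), fun k hk => ?_⟩,
    fun k => ?_, ?_⟩
  · rw [Finset.mem_union, not_or] at hk
    simp only [hZ k hk.1, hZ' k hk.2, add_zero, zero_div]
  · simp only [neg_neg, map_div₀, map_add, Complex.conj_conj, map_ofNat]
    rw [add_comm]
  · refine le_trans (eLpNorm_mono fun x => ?_) ha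
    have h1 := (summable_term hs x).hasSum
    have h2 := (summable_term hs' x).hasSum
    have h3 := (h1.add h2).div_const 2
    have h4 : S (fun k => (a k + conj (a (-k))) / 2) x = (((S a x).re : ℝ) : ℂ) := by
      have e1 : (fun k => (a k * ee k x + conj (a (-k)) * ee k x) / 2)
          = fun k => (a k + conj (a (-k))) / 2 * ee k x := by
        funext k
        ring
      rw [e1] at h3
      have h5 := h3.tsum_eq
      have h6 : ∑' k, conj (a (-k)) * ee k x = conj (S a x) := S_conj x
      rw [h6] at h5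
      have h7 : ∑' k, a k * ee k x = S a x := rfl
      rw [h7] at h5
      have h8 : S (fun k => (a k + conj (a (-k))) / 2) x = (S a x + conj (S a x)) / 2 := h5
      rw [h8, Complex.add_conj]
      push_cast
      ring
    rw [h4]
    have h9 : (f x : ℂ) - (((S a x).re : ℝ) : ℂ) = ((((f x : ℂ) - S a x).re : ℝ) : ℂ) := by
      rw [Complex.sub_re, Complex.ofReal_re]
      push_cast
      ring
    rw [h9, Complex.norm_real]
    exact Complex.abs_re_le_norm _

end Pool.Agent.Run7.h779.WQ
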