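import Pool.Agent.Run7.h779.WQ.D1B

/-!
Piece D1.
-/

set_option autoImplicit false

open MeasureTheory Set Filter Topology
open scoped ENNReal ComplexConjugate

namespace Pool.Agent.Run7.h779.WQ

open H459R3.NS Pool.Agent.Run7.h782 Pool.Agent.Run7.h782.GD Pool.Agent.Run7.h782.WS
open Pool.Agent.Run7.h782.WQ
open Pool.Agent.Run7.h744.WQ hiding rn_nonneg rp_nonneg fn_nonneg fp_nonneg

/-- The case of a stress. -/
theorem d1_stress (c : Cf) (R : Fin 3 → Fin 3 → V → ℝ) (Q : ℕ → ℝ) (h0 : c 0 = 0) (hR : Str R)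
    (hd : IsDiv R c) (hQ : ∀ n, 1 ≤ Q n)
    (hi : ∀ n i j, IntegrableOn (fun x => |R i j x| ^ Q n) cube)
    (hns : ¬ Summable fun k => ‖c k‖) : ∃ r : ℕ → Mf, DatQ Q c r ∧ (∀ m, R1 (r m)) ∧
      ∀ i j m, ∀ n ≤ m, eLpNorm (fun x => (R i j x : ℂ) - S (r m i j) x)
        (ENNReal.ofReal (Q n)) mc ≤ ENNReal.ofReal (1 / (m + 1)) := by
  have hm : ∀ i j n, MemLp (R i j) (ENNReal.ofReal (Q n)) mc := by
    intro i j n
    have hp : 0 < Q n := by linarith [hQ n]
    refine (integrable_norm_rpow_iff (hR.int i j).1 (by simpa using hp)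
      ENNReal.ofReal_ne_top).1 ?_
    rw [ENNReal.toReal_ofReal hp.le]
    exact hi n i j
  have key : ∀ (f : V → ℝ) (m : ℕ), ∃ a : K3 → ℂ,
      (∀ n, MemLp f (ENNReal.ofReal (Q n)) mc) →
      ((∃ Z : Finset K3, ∀ k ∉ Z, a k = 0) ∧ (∀ k, a (-k) = conj (a k)) ∧
      ∀ n ≤ m, eLpNorm (fun x => (f x : ℂ) - S a x) (ENNReal.ofReal (Q n)) mc
        ≤ ENNReal.ofReal (1 / (m + 1))) := by
    intro f m
    by_cases h : ∀ n, MemLp f (ENNReal.ofReal (Q n)) mc
    · obtain ⟨a, ha⟩ := approx f Q hQ h m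
      exact ⟨a, fun _ => ha⟩
    · exact ⟨0, fun h' => absurd h' h⟩
  choose g hg using key
  have hZ : ∀ i j m, ∃ Z : Finset K3, ∀ k ∉ Z, g (R i j) m k = 0 := fun i j m =>
    (hg (R i j) m (hm i j)).1
  have hH : ∀ i j m k, g (R i j) m (-k) = conj (g (R i j) m k) := fun i j m =>
    (hg (R i j) m (hm i j)).2.1
  have hE : ∀ i j m, ∀ n ≤ m, eLpNorm (fun x => (R i j x : ℂ) - S (g (R i j) m) x)
      (ENNReal.ofReal (Q n)) mc ≤ ENNReal.ofReal (1 / (m + 1)) := fun i j m =>
    (hg (R i j) m (hm i j)).2.2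
  have hsum : ∀ i j m, Summable (g (R i j) m) := by
    intro i j m
    obtain ⟨Z, hZ⟩ := hZ i j m
    exact summable_of_ne_finset_zero (s := Z) hZ
  have hR1 : ∀ m, R1 (fun i j => g (R i j) m) := fun m i j => (hsum i j m).norm
  have hS : ∀ i j, R i j = R j i := fun i j => funext fun x => hR.sym i j x
  refine ⟨fun m i j => g (R i j) m, ⟨hQ, ?_, ?_, ?_, ?_, fun h => absurd h hns⟩, hR1, hE⟩
  · intro m
    choose Z hZ' using fun i j => hZ i j m
    refine ⟨Finset.univ.biUnion fun i => Finset.univ.biUnion fun j => Z i j, fun i j k hk => ?_⟩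
    refine hZ' i j k fun h => hk ?_
    exact Finset.mem_biUnion.2 ⟨i, Finset.mem_univ _, Finset.mem_biUnion.2 ⟨j, Finset.mem_univ _, h⟩⟩
  · intro m
    refine ⟨fun i j k => ?_, fun i j k => hH i j m k⟩
    rw [hS i j]
  · intro k
    by_cases hk : k = 0
    · subst hk
      simp only [dvr_zero, h0]
      exact tendsto_const_nhds
    · rw [hd k hk]
      refine tendsto_dvr (s := fun i j l => fr (R i j) l) fun i j => ?_
      rw [tendsto_iff_norm_sub_tendsto_zero]
      refine squeeze_zero (fun _ => norm_nonneg _) (fun m => ?_)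
        tendsto_one_div_add_atTop_nhds_zero_nat
      have hpos : (0 : ℝ) ≤ 1 / (m + 1) := by positivity
      refine coef_le (hsum i j m) (hR.int i j) k hpos ?_
      have ha : AEStronglyMeasurable (fun x => (R i j x : ℂ) - S (g (R i j) m) x) mc := by
        have h1 : AEStronglyMeasurable (fun x => (R i j x : ℂ)) mc := (hR.int i j).ofReal.1
        exact h1.sub (S_continuous (hsum i j m)).aestronglyMeasurable
      exact (eLpNorm_le_eLpNorm_of_exponent_le (one_le_of (hQ 0)) ha).trans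
        (hE i j m 0 (Nat.zero_le m))
  · intro n ε hε
    have hp : 0 < Q n := by linarith [hQ n]
    set δ : ℝ := ε ^ (Q n)⁻¹ / 9 with hδ
    have hδ0 : 0 < δ := by positivity
    have hδe : (9 * δ) ^ Q n = ε := by
      rw [hδ, mul_div_cancel₀ _ (by norm_num : (9 : ℝ) ≠ 0), ← Real.rpow_mul hε.le,
        inv_mul_cancel₀ hp.ne', Real.rpow_one]
    obtain ⟨N, hN⟩ := exists_nat_one_div_lt (half_pos hδ0)
    refine ⟨max n N, fun m m' hm1 hm2 => ?_⟩
    rw [← hδe]
    refine rp_le (hQ n) (r1sub (hR1 m) (hR1 m')) hδ0.le fun i j => ?_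
    have hsmall : ∀ l : ℕ, max n N ≤ l → eLpNorm (fun x => (R i j x : ℂ) - S (g (R i j) l) x)
        (ENNReal.ofReal (Q n)) mc ≤ ENNReal.ofReal (δ / 2) := by
      intro l hl
      refine (hE i j l n ((le_max_left n N).trans hl)).trans (ENNReal.ofReal_le_ofReal ?_)
      refine le_trans ?_ hN.le
      have h1 : (N : ℝ) ≤ l := by exact_mod_cast (le_max_right n N).trans hl
      gcongr
    have hms : ∀ l, AEStronglyMeasurable (fun x => (R i j x : ℂ) - S (g (R i j) l) x) mc := by
      intro l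
      have h1 : AEStronglyMeasurable (fun x => (R i j x : ℂ)) mc := (hR.int i j).ofReal.1
      exact h1.sub (S_continuous (hsum i j l)).aestronglyMeasurable
    have e : S (((fun i j => g (R i j) m) - fun i j => g (R i j) m' : Mf) i j)
        = (fun x => (R i j x : ℂ) - S (g (R i j) m') x)
          - fun x => (R i j x : ℂ) - S (g (R i j) m) x := by
      funext x
      have h2 : S (((fun i j => g (R i j) m) - fun i j => g (R i j) m' : Mf) i j) x
          = S (g (R i j) m) x - S (g (R i j) m') x := S_sub (hsum i j m) (hsum i j m') x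
      rw [h2, Pi.sub_apply]
      ring
    have hgoal : eLpNorm (S (((fun i j => g (R i j) m) - fun i j => g (R i j) m' : Mf) i j))
        (ENNReal.ofReal (Q n)) mc ≤ ENNReal.ofReal δ := by
      rw [e]
      refine (eLpNorm_sub_le (hms m') (hms m) (one_le_of (hQ n))).trans ?_
      refine (add_le_add (hsmall m' hm2) (hsmall m hm1)).trans ?_
      rw [← ENNReal.ofReal_add (by positivity) (by positivity)]
      exact ENNReal.ofReal_le_ofReal (by linarith)
    exact hgoal

/-- The symmetric boxes. -/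
noncomputable def bx (m : ℕ) : Finset K3 := Finset.Icc (fun _ => -(m : ℤ)) (fun _ => (m : ℤ))

theorem mem_bx {m : ℕ} {k : K3} : k ∈ bx m ↔ ∀ i, |k i| ≤ m := by
  rw [bx, Finset.mem_Icc, Pi.le_def, Pi.le_def]
  constructor
  · intro h i
    exact abs_le.2 ⟨h.1 i, h.2 i⟩
  · intro h
    exact ⟨fun i => (abs_le.1 (h i)).1, fun i => (abs_le.1 (h i)).2⟩

theorem bx_neg {m : ℕ} {k : K3} : -k ∈ bx m ↔ k ∈ bx m := by
  rw [mem_bx, mem_bx]
  simp only [Pi.neg_apply, abs_neg]

theorem bx_mono : Monotone bx := by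
  intro m m' h k hk
  rw [mem_bx] at hk ⊢
  intro i
  exact (hk i).trans (by exact_mod_cast h)

theorem bx_tendsto : Tendsto bx atTop atTop := by
  refine tendsto_atTop_finset_of_monotone bx_mono fun k => ?_
  refine ⟨(∑ i, |k i|).toNat, mem_bx.2 fun i => ?_⟩
  have h1 : |k i| ≤ ∑ i, |k i| := Finset.single_le_sum (f := fun i => |k i|)
    (fun _ _ => abs_nonneg _) (Finset.mem_univ i)
  have h2 : (0 : ℤ) ≤ ∑ i, |k i| := Finset.sum_nonneg fun _ _ => abs_nonneg _
  rw [Int.toNat_of_nonneg h2]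
  exact h1

/-- The truncations. -/
noncomputable def trc (c : Cf) (m : ℕ) : Cf := fun k => if k ∈ bx m then c k else 0

theorem tail_tendsto {c : Cf} (hs : Summable fun k => ‖c k‖) :
    Tendsto (fun m => ∑' k, ‖trc c m k - c k‖) atTop (𝓝 0) := by
  have h1 : ∀ m, ∑' k, ‖trc c m k - c k‖ = (∑' k, ‖c k‖) - ∑ k ∈ bx m, ‖c k‖ := by
    intro m
    have e1 : ∀ k, ‖trc c m k - c k‖ = ‖c k‖ - (if k ∈ bx m then ‖c k‖ else 0) := by
      intro k
      rw [trc]
      by_cases h : k ∈ bx m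
      · rw [if_pos h, if_pos h, sub_self, norm_zero, sub_self]
      · rw [if_neg h, if_neg h, zero_sub, norm_neg, sub_zero]
    have h2 : HasSum (fun k => if k ∈ bx m then ‖c k‖ else 0) (∑ k ∈ bx m, ‖c k‖) := by
      have h3 : HasSum (fun k => if k ∈ bx m then ‖c k‖ else 0)
          (∑ k ∈ bx m, if k ∈ bx m then ‖c k‖ else 0) :=
        hasSum_sum_of_ne_finset_zero fun k hk => if_neg hk
      rwa [Finset.sum_congr rfl fun k hk => if_pos hk] at h3
    rw [tsum_congr e1]
    exact (hs.hasSum.sub h2).tsum_eq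
  simp only [h1]
  have h2 := (hs.hasSum.comp bx_tendsto).const_sub (∑' k, ‖c k‖)
  rwa [sub_self] at h2

/-- The case of absolutely summable coefficients. -/
theorem d1_sum (c : Cf) (Q : ℕ → ℝ) (hc : Herm c) (hv : Dv c) (h0 : c 0 = 0)
    (hQ : ∀ n, 1 ≤ Q n) (hs : Summable fun k => ‖c k‖) :
    DatQ Q c (fun m => anti (trc c m)) := by
  obtain ⟨-, q2, -, -, -, -, -, -, q9, q10, q11⟩ := stmQ0
  have hlen : ∀ (d : Cf) k, ‖d k‖ / GD.len k ≤ ‖d k‖ := by
    intro d k
    by_cases hk : k = 0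
    · subst hk
      rw [GD.len_zero, div_zero]
      exact norm_nonneg _
    · exact div_le_self (norm_nonneg _) (GD.one_le_len hk)
  have hsl : ∀ d : Cf, (Summable fun k => ‖d k‖) → Summable fun k => ‖d k‖ / GD.len k :=
    fun d hd => Summable.of_nonneg_of_le (fun k => div_nonneg (norm_nonneg _) (GD.len_nonneg k))
      (hlen d) hd
  have hts : ∀ m, Summable fun k => ‖trc c m k‖ := fun m =>
    summable_of_ne_finset_zero (s := bx m) fun k hk => by rw [trc, if_neg hk, norm_zero]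
  have hth : ∀ m, Herm (trc c m) := by
    intro m k i
    unfold trc
    by_cases h : k ∈ bx m
    · rw [if_pos h, if_pos (bx_neg.2 h)]
      exact hc k i
    · rw [if_neg h, if_neg (fun h' => h (bx_neg.1 h'))]
      simp
  have htd : ∀ m, Dv (trc c m) := by
    intro m k
    unfold trc
    by_cases h : k ∈ bx m
    · rw [if_pos h]
      exact hv k
    · rw [if_neg h, kd_zero_right]
  have ht0 : ∀ m, trc c m 0 = 0 := by
    intro m
    unfold trc
    rw [h0, ite_self]
  have htl := tail_tendsto hs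
  have hsc : ∀ m, Summable fun k => ‖trc c m k - c k‖ := fun m =>
    ((hts m).add hs).of_nonneg_of_le (fun _ => norm_nonneg _) (fun k => norm_sub_le _ _)
  refine ⟨hQ, ?_, ?_, ?_, ?_, ?_⟩
  · intro m
    refine ⟨bx m, fun i j k hk => ?_⟩
    have : trc c m k = 0 := by rw [trc, if_neg hk]
    simp [anti, this]
  · exact fun m => q10 _ (hth m)
  · intro k
    refine tendsto_const_nhds.congr' ?_
    obtain ⟨N, hN⟩ := (bx_tendsto.eventually (eventually_ge_atTop {k})).exists
    filter_upwards [eventually_ge_atTop N] with m hm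
    rw [q11 _ (htd m) (ht0 m), trc, if_pos]
    exact bx_mono hm (hN (Finset.mem_singleton_self k))
  · intro n ε hε
    have hp : 0 < Q n := by linarith [hQ n]
    set δ : ℝ := ε ^ (Q n)⁻¹ / 18 with hδ
    have hδ0 : 0 < δ := by positivity
    have hδe : (18 * δ) ^ Q n = ε := by
      rw [hδ, mul_div_cancel₀ _ (by norm_num : (18 : ℝ) ≠ 0), ← Real.rpow_mul hε.le,
        inv_mul_cancel₀ hp.ne', Real.rpow_one]
    obtain ⟨N, hN⟩ := eventually_atTop.1 (htl.eventually (gt_mem_nhds (half_pos hδ0)))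
    refine ⟨N, fun m m' hm1 hm2 => ?_⟩
    have e1 : (anti (trc c m) - anti (trc c m') : Mf) = anti (trc c m - trc c m') := by
      funext i j k
      simp only [anti, Pi.sub_apply]
      rw [← sub_div]
      congr 1
      ring
    have hd : Summable fun k => ‖(trc c m - trc c m') k‖ :=
      ((hts m).add (hts m')).of_nonneg_of_le (fun _ => norm_nonneg _)
        (fun k => by rw [Pi.sub_apply]; exact norm_sub_le _ _)
    obtain ⟨h1, h2⟩ := q9 _ (hsl _ hd)
    change rp (Q n) (anti (trc c m) - anti (trc c m')) ≤ ε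
    rw [e1]
    refine (q2 (Q n) _ hp h1).trans ?_
    rw [← hδe]
    refine Real.rpow_le_rpow (h744.WQ.rN_nonneg _) (h2.trans ?_) hp.le
    refine mul_le_mul_of_nonneg_left ?_ (by norm_num)
    refine ((hsl _ hd).tsum_le_tsum (hlen _) hd).trans ?_
    have h3 : ∑' k, ‖(trc c m - trc c m') k‖ ≤ ∑' k, (‖trc c m k - c k‖ + ‖trc c m' k - c k‖) := by
      refine hd.tsum_le_tsum (fun k => ?_) ((hsc m).add (hsc m'))
      rw [Pi.sub_apply]
      have := norm_sub_le (trc c m k - c k) (trc c m' k - c k)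
      rwa [sub_sub_sub_cancel_right] at this
    rw [(hsc m).tsum_add (hsc m')] at h3
    linarith [hN m hm1, hN m' hm2]
  · intro _
    refine htl.congr fun m => ?_
    rw [q11 _ (htd m) (ht0 m)]

theorem d1 : StmD1 := by
  intro c R Q hc hv h0 hR hd hQ hi
  by_cases hs : Summable fun k => ‖c k‖
  · exact ⟨_, d1_sum c Q hc hv h0 hQ hs⟩
  · obtain ⟨r, hr, -⟩ := d1_stress c R Q h0 hR hd hQ hi hs
    exact ⟨r, hr⟩

end Pool.Agent.Run7.h779.WQ
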