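import Pool.Agent.Run7.h779.WQ.D1A

/-!
Approximation of a stress by trigonometric polynomials.
-/

set_option autoImplicit false

open MeasureTheory Set Filter Topology
open scoped ENNReal ComplexConjugate

namespace Pool.Agent.Run7.h779.WQ

open H459R3.NS Pool.Agent.Run7.h782 Pool.Agent.Run7.h782.GD Pool.Agent.Run7.h782.WS
open Pool.Agent.Run7.h782.WQ
open Pool.Agent.Run7.h744.WQ hiding rn_nonneg rp_nonneg fn_nonneg fp_nonneg

/-- Approximation in finitely many norms. -/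
theorem approx (f : V → ℝ) (Q : ℕ → ℝ) (hQ : ∀ n, 1 ≤ Q n)
    (hf : ∀ n, MemLp f (ENNReal.ofReal (Q n)) mc) (m : ℕ) :
    ∃ a : K3 → ℂ, (∃ Z : Finset K3, ∀ k ∉ Z, a k = 0) ∧ (∀ k, a (-k) = conj (a k)) ∧
      ∀ n ≤ m, eLpNorm (fun x => (f x : ℂ) - S a x) (ENNReal.ofReal (Q n)) mc
        ≤ ENNReal.ofReal (1 / (m + 1)) := by
  obtain ⟨n₀, -, hn₀⟩ := Finset.exists_max_image (Finset.range (m + 1)) Q ⟨0, by simp⟩
  have h1 : (1 : ℝ≥0∞) ≤ ENNReal.ofReal (Q n₀) := by
    rw [← ENNReal.ofReal_one]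
    exact ENNReal.ofReal_le_ofReal (hQ n₀)
  have hm : (0 : ℝ) < 1 / (m + 1) := by positivity
  obtain ⟨a, ⟨Z, hZ⟩, ha, he⟩ := dens_real h1 ENNReal.ofReal_ne_top (hf n₀)
    (ε := ENNReal.ofReal (1 / (m + 1))) (by simpa using hm)
  refine ⟨a, ⟨Z, hZ⟩, ha, fun n hn => ?_⟩
  have hs : Summable a := summable_of_ne_finset_zero (s := Z) hZ
  refine le_trans (eLpNorm_le_eLpNorm_of_exponent_le (ENNReal.ofReal_le_ofReal
    (hn₀ n (Finset.mem_range.2 (by omega)))) ?_) he
  exact (hf n₀).ofReal.1.sub (S_continuous hs).aestronglyMeasurable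

/-- The coefficients of the approximations. -/
theorem coef_le {f : V → ℝ} {a : K3 → ℂ} (ha : Summable a) (hf : IntegrableOn f cube) (k : K3)
    {δ : ℝ} (hδ : 0 ≤ δ)
    (h : eLpNorm (fun x => (f x : ℂ) - S a x) 1 mc ≤ ENNReal.ofReal δ) :
    ‖a k - fr f k‖ ≤ δ := by
  have hc := S_continuous ha
  have hee := ee_continuous (-k)
  have i1 : IntegrableOn (fun x => ee (-k) x * S a x) cube := integrableOn_cube (hee.mul hc)
  have hfc : IntegrableOn (fun x => (f x : ℂ)) cube := hf.ofReal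
  have i2 : IntegrableOn (fun x => ee (-k) x * (f x : ℂ)) cube := by
    refine Integrable.bdd_mul (c := 1) hfc hee.aestronglyMeasurable ?_
    exact Eventually.of_forall fun x => (norm_ee _ _).le
  have e1 := integral_ee_S (-k) ha
  rw [neg_neg] at e1
  have e2 : a k - fr f k = ∫ x in cube, ee (-k) x * (S a x - (f x : ℂ)) := by
    rw [← e1, fr, fc, ← integral_sub i1 i2]
    congr 1
    funext x
    ring
  rw [e2]
  refine (norm_integral_le_integral_norm _).trans ?_
  have e3 : (∫ x in cube, ‖ee (-k) x * (S a x - (f x : ℂ))‖)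
      = ∫ x in cube, ‖(f x : ℂ) - S a x‖ := by
    congr 1
    funext x
    rw [norm_mul, norm_ee, one_mul, norm_sub_rev]
  have hms : AEStronglyMeasurable (fun x => (f x : ℂ) - S a x) mc :=
    hfc.1.sub hc.aestronglyMeasurable
  rw [e3, integral_norm_eq_lintegral_enorm hms, ← eLpNorm_one_eq_lintegral_enorm]
  exact ENNReal.toReal_le_of_le_ofReal hδ h

theorem one_le_of {p : ℝ} (hp : 1 ≤ p) : (1 : ℝ≥0∞) ≤ ENNReal.ofReal p := by
  rw [← ENNReal.ofReal_one]
  exact ENNReal.ofReal_le_ofReal hp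

theorem rp_le {p : ℝ} (hp : 1 ≤ p) {r : Mf} (hr : R1 r) {δ : ℝ} (hδ : 0 ≤ δ)
    (h : ∀ i j, eLpNorm (S (r i j)) (ENNReal.ofReal p) mc ≤ ENNReal.ofReal δ) :
    rp p r ≤ (9 * δ) ^ p := by
  have hp0 : 0 < p := by linarith
  have hc : ∀ i j, Continuous (S (r i j)) := fun i j => S_continuous (r1s hr i j)
  have e : rn r = ∑ i : Fin 3, ∑ j : Fin 3, fun x => ‖S (r i j) x‖ := by
    funext x
    simp only [rn, Finset.sum_apply]
  have h1 : eLpNorm (rn r) (ENNReal.ofReal p) mc ≤ ENNReal.ofReal (9 * δ) := by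
    rw [e]
    refine (eLpNorm_sum_le (fun i _ => ?_) (one_le_of hp)).trans ?_
    · refine Finset.aestronglyMeasurable_sum _ fun j _ => ?_
      exact (hc i j).norm.aestronglyMeasurable
    · have h2 : ∀ i : Fin 3, eLpNorm (∑ j : Fin 3, fun x => ‖S (r i j) x‖) (ENNReal.ofReal p) mc
          ≤ 3 * ENNReal.ofReal δ := by
        intro i
        refine (eLpNorm_sum_le (fun j _ => (hc i j).norm.aestronglyMeasurable)
          (one_le_of hp)).trans ?_
        have h3 : ∀ j ∈ (Finset.univ : Finset (Fin 3)), eLpNorm (fun x => ‖S (r i j) x‖)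
            (ENNReal.ofReal p) mc ≤ ENNReal.ofReal δ := by
          intro j _
          rw [eLpNorm_norm]
          exact h i j
        refine (Finset.sum_le_sum h3).trans_eq ?_
        simp
      refine (Finset.sum_le_sum fun i _ => h2 i).trans_eq ?_
      rw [Finset.sum_const, Finset.card_univ, Fintype.card_fin,
        ENNReal.ofReal_mul (by norm_num : (0 : ℝ) ≤ 9)]
      rw [nsmul_eq_mul, ← mul_assoc]
      congr 1
      norm_num
  have hcn : Continuous (rn r) := rn_continuous hr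
  have hm : MemLp (rn r) (ENNReal.ofReal p) mc := ⟨hcn.aestronglyMeasurable,
    h1.trans_lt ENNReal.ofReal_lt_top⟩
  have h3 := hm.eLpNorm_eq_integral_rpow_norm (by simpa using hp0) ENNReal.ofReal_ne_top
  rw [h3, ENNReal.toReal_ofReal hp0.le] at h1
  have h4 : (∫ x in cube, ‖rn r x‖ ^ p) = rp p r := by
    unfold rp
    congr 1
    funext x
    rw [Real.norm_of_nonneg (h744.WQ.rn_nonneg r x)]
  rw [h4] at h1
  have h5 : rp p r ^ p⁻¹ ≤ 9 * δ := (ENNReal.ofReal_le_ofReal_iff (by positivity)).1 h1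
  have h6 := Real.rpow_le_rpow (Real.rpow_nonneg (h744.WQ.rp_nonneg p r) _) h5 hp0.le
  rwa [← Real.rpow_mul (h744.WQ.rp_nonneg p r), inv_mul_cancel₀ hp0.ne', Real.rpow_one] at h6

theorem dvr_zero (r : Mf) : dvr r 0 = 0 := by
  rw [dvr]
  have : (fun i => ∑ j, (((0 : K3) j : ℤ) : ℂ) * r i j 0) = (0 : C3) := by
    funext i
    simp
  rw [this, prj_zero, smul_zero]

theorem tendsto_dvr {r : ℕ → Mf} {s : Mf} {k : K3}
    (h : ∀ i j, Tendsto (fun m => r m i j k) atTop (𝓝 (s i j k))) :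
    Tendsto (fun m => dvr (r m) k) atTop (𝓝 (dvr s k)) := by
  have h1 : Tendsto (fun m => (fun i => ∑ j, (k j : ℂ) * r m i j k : C3)) atTop
      (𝓝 (fun i => ∑ j, (k j : ℂ) * s i j k)) := by
    refine tendsto_pi_nhds.2 fun i => ?_
    exact tendsto_finsetSum _ fun j _ => (h i j).const_mul _
  have h2 : Tendsto (fun m => prj k (fun i => ∑ j, (k j : ℂ) * r m i j k)) atTop
      (𝓝 (prj k (fun i => ∑ j, (k j : ℂ) * s i j k))) := by
    have := ((prjC k).continuous.tendsto (fun i => ∑ j, (k j : ℂ) * s i j k)).comp h1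
    exact this
  exact h2.const_smul (2 * Real.pi * Complex.I : ℂ)

end Pool.Agent.Run7.h779.WQ
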