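import Mathlib

/-!
# Khinchine's inequality for sums of independent sines
-/

set_option autoImplicit false

open MeasureTheory Set Filter Topology

namespace Pool.Agent.Run7.h779.WQ

/-- one factor -/
lemma one_sin (t : ℝ) : ∫ y in Icc (0 : ℝ) 1, Real.exp (t * Real.sin (2 * Real.pi * y)) ≤
    Real.exp (t ^ 2 / 2) := by
  have h1 : ∀ y : ℝ, Real.exp (t * Real.sin (2 * Real.pi * y)) ≤
      Real.cosh t + Real.sin (2 * Real.pi * y) * Real.sinh t := by
    intro y
    have := Real.exp_mul_le_cosh_add_mul_sinh (Real.abs_sin_le_one (2 * Real.pi * y)) t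
    rwa [mul_comm] at this
  have hc1 : Continuous fun y : ℝ => Real.exp (t * Real.sin (2 * Real.pi * y)) := by fun_prop
  have hc2 : Continuous fun y : ℝ => Real.cosh t + Real.sin (2 * Real.pi * y) * Real.sinh t := by
    fun_prop
  calc ∫ y in Icc (0 : ℝ) 1, Real.exp (t * Real.sin (2 * Real.pi * y))
      ≤ ∫ y in Icc (0 : ℝ) 1, (Real.cosh t + Real.sin (2 * Real.pi * y) * Real.sinh t) :=
        setIntegral_mono hc1.integrableOn_Icc hc2.integrableOn_Icc h1
    _ = Real.cosh t := by
        rw [integral_Icc_eq_integral_Ioc, ← intervalIntegral.integral_of_le zero_le_one]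
        rw [intervalIntegral.integral_add (by simp) (Continuous.intervalIntegrable (by fun_prop) _ _),
          intervalIntegral.integral_mul_const]
        have h2 : ∫ y in (0 : ℝ)..1, Real.sin (2 * Real.pi * y) = 0 := by
          rw [intervalIntegral.integral_comp_mul_left (fun x => Real.sin x)
            (by positivity : (2 * Real.pi) ≠ 0)]
          simp
        rw [h2]
        simp
    _ ≤ Real.exp (t ^ 2 / 2) := Real.cosh_le_exp_half_sq t

/-- the exponential moment of the sum -/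
lemma exp_sum (N : ℕ) (hN : 0 < N) (t : ℝ) (ht : t ^ 2 = 1 / N) :
    ∫ y in Icc (0 : Fin N → ℝ) 1, Real.exp (t * ∑ l, Real.sin (2 * Real.pi * y l)) ≤
      Real.exp (1 / 2) := by
  have h1 : (Icc (0 : Fin N → ℝ) 1) = Set.pi univ fun _ : Fin N => Icc (0 : ℝ) 1 := by
    rw [Set.pi_univ_Icc]
    rfl
  have h2 : (volume : Measure (Fin N → ℝ)).restrict (Icc (0 : Fin N → ℝ) 1) =
      Measure.pi fun _ : Fin N => (volume : Measure ℝ).restrict (Icc (0 : ℝ) 1) := by
    rw [h1, volume_pi, Measure.restrict_pi_pi]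
  have h3 : ∀ y : Fin N → ℝ, Real.exp (t * ∑ l, Real.sin (2 * Real.pi * y l)) =
      ∏ l, Real.exp (t * Real.sin (2 * Real.pi * y l)) := by
    intro y
    rw [Finset.mul_sum, Real.exp_sum]
  rw [h2]
  simp_rw [h3]
  rw [integral_fintype_prod_eq_prod (𝕜 := ℝ)
    (fun (_ : Fin N) (x : ℝ) => Real.exp (t * Real.sin (2 * Real.pi * x)))]
  calc ∏ _l : Fin N, ∫ x, Real.exp (t * Real.sin (2 * Real.pi * x))
        ∂(volume.restrict (Icc (0 : ℝ) 1))
      ≤ ∏ _l : Fin N, Real.exp (t ^ 2 / 2) := by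
        refine Finset.prod_le_prod (fun _ _ => ?_) (fun _ _ => one_sin t)
        exact integral_nonneg fun _ => (Real.exp_pos _).le
    _ = Real.exp (1 / 2) := by
        rw [Finset.prod_const, Finset.card_univ, Fintype.card_fin, ← Real.exp_nat_mul, ht]
        congr 1
        have : (N : ℝ) ≠ 0 := by exact_mod_cast hN.ne'
        field_simp

/-- powers are bounded by the exponential function -/
lemma rpow_le_exp (p s : ℝ) (hp : 0 < p) (hs : 0 ≤ s) : s ^ p ≤ p ^ p * Real.exp s := by
  have h1 : s ≤ p * Real.exp (s / p) := by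
    have h2 : s / p ≤ Real.exp (s / p) := by
      have := Real.add_one_le_exp (s / p)
      linarith
    calc s = p * (s / p) := by field_simp
      _ ≤ p * Real.exp (s / p) := mul_le_mul_of_nonneg_left h2 hp.le
  calc s ^ p ≤ (p * Real.exp (s / p)) ^ p := Real.rpow_le_rpow hs h1 hp.le
    _ = p ^ p * Real.exp s := by
        rw [Real.mul_rpow hp.le (Real.exp_pos _).le, ← Real.exp_mul]
        congr 2
        field_simp

theorem kh_main : ∃ C : ℝ → ℝ, (∀ p, 0 < C p) ∧ ∀ (N : ℕ), 0 < N → ∀ p : ℝ, 0 < p →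
    ∫ y in Icc (0 : Fin N → ℝ) 1, |(∑ l, Real.sin (2 * Real.pi * y l)) / Real.sqrt N| ^ p ≤
      C p := by
  refine ⟨fun p => max 1 (p ^ p * (2 * Real.exp (1 / 2))), fun p => lt_of_lt_of_le one_pos
    (le_max_left _ _), fun N hN p hp => ?_⟩
  refine le_trans ?_ (le_max_right _ _)
  have hN' : (0 : ℝ) < N := by exact_mod_cast hN
  have hsq : √(N : ℝ) ^ 2 = N := Real.sq_sqrt hN'.le
  have hs0 : 0 < √(N : ℝ) := Real.sqrt_pos.mpr hN'
  set t : ℝ := 1 / √(N : ℝ) with ht
  have ht2 : t ^ 2 = 1 / N := by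
    rw [ht, div_pow, one_pow, hsq]
  have hcomp : IsCompact (Icc (0 : Fin N → ℝ) 1) := isCompact_Icc
  have hcA : Continuous fun y : Fin N → ℝ =>
      |(∑ l, Real.sin (2 * Real.pi * y l)) / Real.sqrt N| ^ p := by
    refine Continuous.rpow_const ?_ (fun _ => Or.inr hp.le)
    fun_prop
  have hcB : ∀ r : ℝ, Continuous fun y : Fin N → ℝ =>
      Real.exp (r * ∑ l, Real.sin (2 * Real.pi * y l)) := by
    intro r
    fun_prop
  have hle : ∀ y : Fin N → ℝ, |(∑ l, Real.sin (2 * Real.pi * y l)) / Real.sqrt N| ^ p ≤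
      p ^ p * (Real.exp (t * ∑ l, Real.sin (2 * Real.pi * y l)) +
        Real.exp ((-t) * ∑ l, Real.sin (2 * Real.pi * y l))) := by
    intro y
    set s : ℝ := (∑ l, Real.sin (2 * Real.pi * y l)) / Real.sqrt N with hs
    have e1 : t * ∑ l, Real.sin (2 * Real.pi * y l) = s := by
      rw [hs, ht]
      ring
    rw [neg_mul, e1]
    refine (rpow_le_exp p |s| hp (abs_nonneg s)).trans ?_
    apply mul_le_mul_of_nonneg_left _ (Real.rpow_nonneg hp.le _)
    rcases abs_cases s with ⟨h, _⟩ | ⟨h, _⟩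
    · rw [h]
      linarith [Real.exp_pos (-s)]
    · rw [h]
      linarith [Real.exp_pos s]
  calc ∫ y in Icc (0 : Fin N → ℝ) 1, |(∑ l, Real.sin (2 * Real.pi * y l)) / Real.sqrt N| ^ p
      ≤ ∫ y in Icc (0 : Fin N → ℝ) 1,
        p ^ p * (Real.exp (t * ∑ l, Real.sin (2 * Real.pi * y l)) +
        Real.exp ((-t) * ∑ l, Real.sin (2 * Real.pi * y l))) := by
        refine setIntegral_mono (hcA.continuousOn.integrableOn_compact hcomp) ?_ hle
        exact (Continuous.continuousOn (continuous_const.mul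
          ((hcB t).add (hcB (-t))))).integrableOn_compact hcomp
    _ = p ^ p * ((∫ y in Icc (0 : Fin N → ℝ) 1,
          Real.exp (t * ∑ l, Real.sin (2 * Real.pi * y l))) +
        ∫ y in Icc (0 : Fin N → ℝ) 1,
          Real.exp ((-t) * ∑ l, Real.sin (2 * Real.pi * y l))) := by
        rw [integral_const_mul, integral_add]
        · exact (hcB t).continuousOn.integrableOn_compact hcomp
        · exact (hcB (-t)).continuousOn.integrableOn_compact hcomp
    _ ≤ p ^ p * (2 * Real.exp (1 / 2)) := by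
        apply mul_le_mul_of_nonneg_left _ (Real.rpow_nonneg hp.le _)
        have h1 := exp_sum N hN t ht2
        have h2 := exp_sum N hN (-t) (by rw [neg_sq]; exact ht2)
        linarith

end Pool.Agent.Run7.h779.WQ
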